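import Pool.Agent.W785.FD.Stms

/-! Lebesgue differentiation with open balls. -/

set_option autoImplicit false

open MeasureTheory Metric Set Filter
open scoped ENNReal NNReal Topology
open Pool.Agent.W785.FD

namespace Pool.Agent.W440.FD.LD

theorem main {X : Type*} [MetricSpace X] [ProperSpace X] [MeasurableSpace X] [BorelSpace X]
    (μ : Measure X) (D : ℝ) (hD : Dbl μ D) : S_LD μ := by
  have hdoub : IsUnifLocDoublingMeasure μ := by
    refine ⟨⟨D.toNNReal ^ 2, ?_⟩⟩
    filter_upwards [self_mem_nhdsWithin] with ε hε x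
    have hε' : (0 : ℝ) < ε := hε
    have h1 : closedBall x (2 * ε) ⊆ ball x (2 * (2 * ε)) :=
      closedBall_subset_ball (by linarith)
    calc μ (closedBall x (2 * ε)) ≤ μ (ball x (2 * (2 * ε))) := measure_mono h1
      _ ≤ ENNReal.ofReal D * μ (ball x (2 * ε)) := hD.dbl x _ (by positivity)
      _ ≤ ENNReal.ofReal D * (ENNReal.ofReal D * μ (ball x ε)) := by
          gcongr
          exact hD.dbl x _ hε'
      _ ≤ ENNReal.ofReal D * (ENNReal.ofReal D * μ (closedBall x ε)) := by
          gcongr
          exact ball_subset_closedBall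
      _ = ((D.toNNReal ^ 2 : ℝ≥0) : ℝ≥0∞) * μ (closedBall x ε) := by
          rw [ENNReal.ofReal, ENNReal.coe_pow, sq, mul_assoc]
  have hlf : IsLocallyFiniteMeasure μ :=
    ⟨fun x => ⟨ball x 1, ball_mem_nhds x one_pos, hD.fin x 1⟩⟩
  intro u hu
  have hloc : LocallyIntegrable u μ := fun x => ⟨ball x 1, ball_mem_nhds x one_pos, hu x 1⟩
  filter_upwards [IsUnifLocDoublingMeasure.ae_tendsto_average_norm_sub μ hloc 1] with x hx
  have h1 := hx (fun _ : ℝ => x) (fun r : ℝ => r) (l := 𝓝[>] 0) tendsto_id (by
    filter_upwards [self_mem_nhdsWithin] with r hr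
    have hr' : (0 : ℝ) < r := hr
    rw [mem_closedBall, dist_self]
    linarith)
  have h2 : Tendsto (fun r : ℝ => ENNReal.ofReal (D * ⨍ y in closedBall x r, ‖u y - u x‖ ∂μ))
      (𝓝[>] 0) (𝓝 0) := by
    have h3 := ENNReal.tendsto_ofReal (h1.const_mul D)
    rwa [mul_zero, ENNReal.ofReal_zero] at h3
  refine tendsto_of_tendsto_of_tendsto_of_le_of_le' tendsto_const_nhds h2
    (Eventually.of_forall fun _ => zero_le) ?_
  filter_upwards [self_mem_nhdsWithin] with r hr
  have hr' : (0 : ℝ) < r := hr
  have hpos := hD.pos x r hr'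
  have hfin := hD.fin x r
  have hcfin : μ (closedBall x r) < ∞ :=
    (measure_mono (closedBall_subset_ball (by linarith : r < 2 * r))).trans_lt (hD.fin x _)
  have hcpos : 0 < μ (closedBall x r) := hpos.trans_le (measure_mono ball_subset_closedBall)
  have hint : IntegrableOn (fun y => ‖u y - u x‖) (closedBall x r) μ := by
    have h3 : IntegrableOn u (closedBall x r) μ :=
      (hu x (2 * r)).mono_set (closedBall_subset_ball (by linarith))
    have h4 : IntegrableOn (fun _ : X => u x) (closedBall x r) μ :=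
      integrableOn_const hcfin.ne (by simp)
    exact (h3.sub h4).norm
  have h5 : ∫⁻ y in ball x r, ENNReal.ofReal |u y - u x| ∂μ ≤
      ENNReal.ofReal (D * ⨍ y in closedBall x r, ‖u y - u x‖ ∂μ) * μ (ball x r) := by
    calc ∫⁻ y in ball x r, ENNReal.ofReal |u y - u x| ∂μ
        ≤ ∫⁻ y in closedBall x r, ENNReal.ofReal |u y - u x| ∂μ :=
          lintegral_mono_set ball_subset_closedBall
      _ = ENNReal.ofReal (∫ y in closedBall x r, ‖u y - u x‖ ∂μ) := by
          rw [ofReal_integral_eq_lintegral_ofReal hint (Eventually.of_forall fun y =>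
            norm_nonneg _)]
          rfl
      _ = ENNReal.ofReal (⨍ y in closedBall x r, ‖u y - u x‖ ∂μ) * μ (closedBall x r) := by
          rw [setAverage_eq, smul_eq_mul, measureReal_def]
          rw [ENNReal.ofReal_mul (by positivity), ENNReal.ofReal_inv_of_pos
            (ENNReal.toReal_pos hcpos.ne' hcfin.ne), ENNReal.ofReal_toReal hcfin.ne]
          rw [mul_assoc, mul_comm (ENNReal.ofReal _), ← mul_assoc,
            ENNReal.inv_mul_cancel hcpos.ne' hcfin.ne, one_mul]
      _ ≤ ENNReal.ofReal (⨍ y in closedBall x r, ‖u y - u x‖ ∂μ) *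
          (ENNReal.ofReal D * μ (ball x r)) := by
          gcongr
          exact (measure_mono (closedBall_subset_ball (by linarith))).trans (hD.dbl x r hr')
      _ = ENNReal.ofReal (D * ⨍ y in closedBall x r, ‖u y - u x‖ ∂μ) * μ (ball x r) := by
          rw [ENNReal.ofReal_mul (by linarith [hD.one_le])]
          ring
  unfold lav
  rw [ENNReal.div_le_iff hpos.ne' hfin.ne]
  exact h5

end Pool.Agent.W440.FD.LD
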